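import Mathlib

/-!
# A function whose difference quotients avoid a sequence of windows
-/

set_option autoImplicit false

open MeasureTheory Set Filter Topology
open scoped ENNReal

namespace Pool.Agent.H316R3.NL

/-- the values -/
noncomputable def U : ℕ → ℝ
  | 0 => 4
  | k + 1 => 4 * U k * Real.exp (U k)

/-- the radii -/
noncomputable def r (k : ℕ) : ℝ := Real.exp (-U k)

open Classical in
/-- the jump points -/
noncomputable def B : ℕ → Finset ℝ
  | 0 => {1 / 2}
  | k + 1 => (B k ∪ (B k).image (fun b => b + r k)) ∪ (B k).image (fun b => b - r k)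

/-- the neighbourhoods of the jump points -/
def G (k : ℕ) : Set ℝ := ⋃ b ∈ B k, Ioo (b - r k) (b + r k)

open Classical in
/-- the approximating step functions -/
noncomputable def uk : ℕ → ℝ → ℝ
  | 0 => fun x => if x < 1 / 2 then 0 else 4
  | k + 1 => fun x => if x ∈ G k then U (k + 1) else uk k x

/-- the function -/
noncomputable def u (x : ℝ) : ℝ := (⨆ k, ENNReal.ofReal (uk k x)).toReal

lemma r_pos (k : ℕ) : 0 < r k := Real.exp_pos _

lemma U_ge (k : ℕ) : (4 : ℝ) ^ (k + 1) ≤ U k := by
  induction k with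
  | zero => simp [U]
  | succ k ih =>
    have h0 : (0 : ℝ) < U k := lt_of_lt_of_le (by positivity) ih
    have h1 : 1 ≤ Real.exp (U k) := Real.one_le_exp h0.le
    calc (4 : ℝ) ^ (k + 1 + 1) = 4 * 4 ^ (k + 1) := by ring
      _ ≤ 4 * U k := by linarith
      _ ≤ 4 * U k * Real.exp (U k) := le_mul_of_one_le_right (by linarith) h1

lemma U_pos (k : ℕ) : 0 < U k := lt_of_lt_of_le (by positivity) (U_ge k)

lemma U_four (k : ℕ) : 4 ≤ U k := by
  have h := U_ge k
  have h1 : (4 : ℝ) ^ 1 ≤ 4 ^ (k + 1) := pow_le_pow_right₀ (by norm_num) (by omega)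
  linarith

lemma U_succ (k : ℕ) : 4 * U k ≤ U (k + 1) := by
  have h1 : 1 ≤ Real.exp (U k) := Real.one_le_exp (U_pos k).le
  exact le_mul_of_one_le_right (by linarith [U_pos k]) h1

lemma U_mono : Monotone U := monotone_nat_of_le_succ fun k => by
  linarith [U_succ k, U_pos k]

lemma r_le_one (k : ℕ) : r k ≤ 1 := by
  unfold r
  rw [Real.exp_le_one_iff]
  linarith [U_pos k]

lemma uk_nonneg (k : ℕ) (x : ℝ) : 0 ≤ uk k x := by
  induction k with
  | zero => simp only [uk]; split_ifs <;> norm_num
  | succ k ih => simp only [uk]; split_ifs; exacts [(U_pos _).le, ih]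

lemma uk_le (k : ℕ) (x : ℝ) : uk k x ≤ U k := by
  induction k with
  | zero => simp only [uk, U]; split_ifs <;> norm_num
  | succ k ih => 
    simp only [uk]
    split_ifs
    · exact le_rfl
    · exact ih.trans (U_mono (Nat.le_succ k))

lemma uk_mono_succ (k : ℕ) (x : ℝ) : uk k x ≤ uk (k + 1) x := by
  by_cases h : x ∈ G k
  · simp only [uk, if_pos h]
    exact (uk_le k x).trans (U_mono (Nat.le_succ k))
  · simp only [uk, if_neg h]; exact le_rfl

lemma uk_mono (x : ℝ) : Monotone (fun k => uk k x) := monotone_nat_of_le_succ fun k => uk_mono_succ k x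

lemma measurableSet_G (k : ℕ) : MeasurableSet (G k) := by
  unfold G
  exact Finset.measurableSet_biUnion _ fun _ _ => measurableSet_Ioo

lemma measurable_uk (k : ℕ) : Measurable (uk k) := by
  induction k with
  | zero => exact Measurable.ite measurableSet_Iio measurable_const measurable_const
  | succ k ih => exact Measurable.ite (measurableSet_G k) measurable_const ih

lemma measurable_u : Measurable u := by
  unfold u
  exact (Measurable.iSup fun k => (measurable_uk k).ennreal_ofReal).ennreal_toReal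

lemma uk_eq_of_le {x : ℝ} {N k : ℕ} (h : ∀ j, N ≤ j → x ∉ G j) (hk : N ≤ k) :
    uk k x = uk N x := by
  induction k, hk using Nat.le_induction with
  | base => rfl
  | succ k hk ih => simp only [uk, if_neg (h k hk)]; exact ih

lemma u_eq {x : ℝ} {N : ℕ} (h : ∀ j, N ≤ j → x ∉ G j) : u x = uk N x := by
  unfold u
  have : (⨆ k, ENNReal.ofReal (uk k x)) = ENNReal.ofReal (uk N x) := by
    apply le_antisymm
    · apply iSup_le
      intro k
      apply ENNReal.ofReal_le_ofReal
      rcases le_total N k with hk | hk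
      · rw [uk_eq_of_le h hk]
      · exact uk_mono x hk
    · exact le_iSup (fun k => ENNReal.ofReal (uk k x)) N
  rw [this, ENNReal.toReal_ofReal (uk_nonneg N x)]

lemma B_subset (k : ℕ) : B k ⊆ B (k + 1) := by
  intro b hb
  simp only [B, Finset.mem_union]
  exact Or.inl (Or.inl hb)

/-- `uk k` is constant on intervals free of jump points. -/
lemma uk_const (k : ℕ) : ∀ x y : ℝ, x ≤ y → (∀ b ∈ B k, ¬ (x ≤ b ∧ b ≤ y)) → uk k x = uk k y := by
  induction k with
  | zero =>
    intro x y hxy h
    have h1 := h (1 / 2) (by simp [B])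
    simp only [uk]
    by_cases hx : x < 1 / 2
    · have hy : y < 1 / 2 := by
        by_contra hy
        exact h1 ⟨hx.le, not_lt.1 hy⟩
      rw [if_pos hx, if_pos hy]
    · have hy : ¬ y < 1 / 2 := fun hy => hx (lt_of_le_of_lt hxy hy)
      rw [if_neg hx, if_neg hy]
  | succ k ih =>
    intro x y hxy h
    have h0 := ih x y hxy (fun b hb => h b (B_subset k hb))
    have hG : x ∈ G k ↔ y ∈ G k := by
      simp only [G, mem_iUnion, mem_Ioo, exists_prop]
      constructor
      · rintro ⟨b, hb, h1, h2⟩
        refine ⟨b, hb, by linarith, ?_⟩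
        by_contra h3
        refine h (b + r k) ?_ ⟨h2.le, not_lt.1 h3⟩
        simp only [B, Finset.mem_union, Finset.mem_image]
        exact Or.inl (Or.inr ⟨b, hb, rfl⟩)
      · rintro ⟨b, hb, h1, h2⟩
        refine ⟨b, hb, ?_, by linarith⟩
        by_contra h3
        refine h (b - r k) ?_ ⟨not_lt.1 h3, h1.le⟩
        simp only [B, Finset.mem_union, Finset.mem_image]
        exact Or.inr ⟨b, hb, rfl⟩
    simp only [uk]
    by_cases hx : x ∈ G k
    · rw [if_pos hx, if_pos (hG.1 hx)]
    · rw [if_neg hx, if_neg (fun hy => hx (hG.2 hy)), h0]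

lemma sep_aux {k : ℕ} {x y : ℝ} (hxy : x ≤ y) (hx : x ∉ G k) (hy : y ∉ G k)
    (hne : uk k x ≠ uk k y) : 2 * r k ≤ y - x := by
  have : ∃ b ∈ B k, x ≤ b ∧ b ≤ y := by
    by_contra hcon
    push Not at hcon
    exact hne (uk_const k x y hxy (fun b hb h => absurd h.2 (not_le.2 (hcon b hb h.1))))
  obtain ⟨b, hb, h1, h2⟩ := this
  have hx' : x ≤ b - r k := by
    by_contra hcon
    apply hx
    simp only [G, mem_iUnion, mem_Ioo, exists_prop]
    exact ⟨b, hb, not_le.1 hcon, by linarith [r_pos k]⟩
  have hy' : b + r k ≤ y := by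
    by_contra hcon
    apply hy
    simp only [G, mem_iUnion, mem_Ioo, exists_prop]
    exact ⟨b, hb, by linarith [r_pos k], not_le.1 hcon⟩
  linarith

lemma sep {k : ℕ} {x y : ℝ} (hx : x ∉ G k) (hy : y ∉ G k)
    (hne : uk k x ≠ uk k y) : 2 * r k ≤ |y - x| := by
  rcases le_total x y with h | h
  · rw [abs_of_nonneg (by linarith)]; exact sep_aux h hx hy hne
  · rw [abs_sub_comm, abs_of_nonneg (by linarith)]; exact sep_aux h hy hx hne.symm

/-- left end of the `k`-th window; the window is `(a k, 4 * a k)` -/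
noncomputable def a (k : ℕ) : ℝ := U k / (2 * r k)

lemma a_eq (k : ℕ) : 4 * a k = U (k + 1) / 2 := by
  unfold a r
  rw [show U (k + 1) = 4 * U k * Real.exp (U k) from rfl, Real.exp_neg]
  field_simp

lemma a_pos (k : ℕ) : 0 < a k := div_pos (U_pos k) (by linarith [r_pos k])

lemma half_U_le_a (k : ℕ) : U k / 2 ≤ a k := by
  unfold a
  rw [div_le_div_iff₀ (by norm_num) (by linarith [r_pos k])]
  nlinarith [U_pos k, r_le_one k, r_pos k]

lemma a_succ (k : ℕ) : 4 * a k ≤ a (k + 1) := by
  rw [a_eq]; exact half_U_le_a _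

lemma a_mono : Monotone a := monotone_nat_of_le_succ fun k => by linarith [a_succ k, a_pos k]

/-- the complement of the windows -/
def Z : Set ℝ := (⋃ k, Ioo (a k) (4 * a k))ᶜ

/-- The main dichotomy. -/
lemma quotient {x y : ℝ} (hx : ∃ N, ∀ j, N ≤ j → x ∉ G j) (hy : ∃ N, ∀ j, N ≤ j → y ∉ G j)
    (hd : |y - x| ≤ 1) (hne : u x ≠ u y) :
    ∃ K : ℕ, 2 * r K ≤ |y - x| ∧ |u y - u x| / |y - x| ∈ Z ∧
      (K = 0 ∨ U K / 2 ≤ |u y - u x| / |y - x|) := by
  classical
  obtain ⟨N₁, h₁⟩ := hx
  obtain ⟨N₂, h₂⟩ := hy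
  have hex : ∃ K, ∀ j, K ≤ j → x ∉ G j ∧ y ∉ G j :=
    ⟨max N₁ N₂, fun j hj => ⟨h₁ j (le_trans (le_max_left _ _) hj), h₂ j (le_trans (le_max_right _ _) hj)⟩⟩
  set K := Nat.find hex with hK
  have hKs : ∀ j, K ≤ j → x ∉ G j ∧ y ∉ G j := Nat.find_spec hex
  have hux : u x = uk K x := u_eq fun j hj => (hKs j hj).1
  have huy : u y = uk K y := u_eq fun j hj => (hKs j hj).2
  have hne' : uk K x ≠ uk K y := by rw [← hux, ← huy]; exact hne
  have hsep := sep (hKs K le_rfl).1 (hKs K le_rfl).2 hne'
  have hpos : 0 < |y - x| := lt_of_lt_of_le (by linarith [r_pos K]) hsep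
  have hle : |u y - u x| / |y - x| ≤ a K := by
    have h1 : |u y - u x| ≤ U K := by
      rw [hux, huy, abs_le]
      have := uk_nonneg K x
      have := uk_nonneg K y
      have := uk_le K x
      have := uk_le K y
      constructor <;> linarith
    unfold a
    exact div_le_div₀ (U_pos K).le h1 (by linarith [r_pos K]) hsep
  have hge : K = 0 ∨ U K / 2 ≤ |u y - u x| / |y - x| := by
    rcases Nat.eq_zero_or_pos K with h0 | h0
    · exact Or.inl h0
    · right
      obtain ⟨K', hK'⟩ : ∃ K', K = K' + 1 := ⟨K - 1, by omega⟩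
      have hmin := Nat.find_min hex (m := K') (by omega)
      push Not at hmin
      obtain ⟨j, hj1, hj2⟩ := hmin
      have hjK : j = K' := by
        by_contra hcon
        have := hKs j (by omega)
        exact this.2 (hj2 this.1)
      subst hjK
      have h1 : U K / 2 ≤ |u y - u x| := by
        rw [hux, huy, hK']
        by_cases hxG : x ∈ G j
        · have e1 : uk (j + 1) x = U (j + 1) := by simp only [uk, if_pos hxG]
          have hyG : y ∉ G j := by
            intro hyG
            apply hne'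
            rw [hK', e1]; simp only [uk, if_pos hyG]
          have e2 : uk (j + 1) y = uk j y := by simp only [uk, if_neg hyG]
          rw [e1, e2, abs_sub_comm, le_abs]
          left
          linarith [uk_le j y, U_succ j, U_pos j]
        · have hyG : y ∈ G j := by
            by_contra hyG
            exact hyG (hj2 hxG)
          have e1 : uk (j + 1) y = U (j + 1) := by simp only [uk, if_pos hyG]
          have e2 : uk (j + 1) x = uk j x := by simp only [uk, if_neg hxG]
          rw [e1, e2, le_abs]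
          left
          linarith [uk_le j x, U_succ j, U_pos j]
      rw [le_div_iff₀ hpos]
      calc U K / 2 * |y - x| ≤ U K / 2 * 1 :=
            mul_le_mul_of_nonneg_left hd (by linarith [U_pos K])
        _ ≤ _ := by linarith
  refine ⟨K, hsep, ?_, hge⟩
  simp only [Z, mem_compl_iff, mem_iUnion, not_exists, mem_Ioo, not_and, not_lt]
  intro j hj
  rcases lt_or_ge j K with h | h
  · rcases hge with h0 | h0
    · omega
    · obtain ⟨K', hK'⟩ : ∃ K', K = K' + 1 := ⟨K - 1, by omega⟩
      have h2 : a j ≤ a K' := a_mono (by omega)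
      have h3 := a_eq K'
      rw [← hK'] at h3
      linarith
  · have h2 := a_mono h
    linarith

end Pool.Agent.H316R3.NL
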